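import Pool.Agent.X51.SparseTri.Exist2

set_option autoImplicit false

/-!
# MP_e47ff0: almost dense graphs with the right number of four-cycles and almost no triangles

There are graphs `G_n` on `n` vertices of density exactly `p(n) = n ^ (-o(1))` for which the
normalised number of four-cycles tends to `1`, the normalised number of copies of every fixed
graph is bounded, and the normalised number of triangles tends to `0`.

Vertices get independent random sign vectors `x` of length `k ^ 7`, and `xy` is an edge with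
probability `p ∏ (1 - x_l y_l / k ^ 2)`, where `p = 2 ^ (-k ^ 7)` and `k` tends to infinity slowly
with `n`.  A product over the edges of `F` of factors `1 - ε x y` has expectation
`1 - ε ^ 3` for the triangle and at most `1 + O(ε ^ 4)` for every `F`; the powers with exponent
`k ^ 7` tend to `0` for the triangle and stay bounded for all `F`.
-/

open Filter Topology

namespace Pool.Agent.Results.MP_e47ff0_co.FewTriangles

/-- The number `emb(F, G)` of injective homomorphisms from `F` to `G`. -/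
noncomputable def emb {v n : ℕ} (F : SimpleGraph (Fin v)) (G : SimpleGraph (Fin n)) : ℕ :=
  {f : Fin v → Fin n | Function.Injective f ∧ ∀ i j, F.Adj i j → G.Adj (f i) (f j)}.ncard

/-- `s_p(F, G) = emb(F, G) / (n (n - 1) ⋯ (n - |F| + 1) p ^ e(F))`. -/
noncomputable def s {v n : ℕ} (p : ℝ) (F : SimpleGraph (Fin v)) (G : SimpleGraph (Fin n)) : ℝ :=
  (emb F G : ℝ) / ((n.descFactorial v : ℝ) * p ^ F.edgeSet.ncard)

open Pool.Agent.X51.SparseTri (K2 C3 C4 Good2 CF CF_pos edges_C3 edges_C4 desc2 desc4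
  good2_exists_aux)

/-- the edge density before normalisation -/
noncomputable def pk (k : ℕ) : ℝ := (1 / 2) ^ (k ^ 7)

theorem pk_pos (k : ℕ) : 0 < pk k := by
  unfold pk
  positivity

theorem eventually_good (k : ℕ) (hk : 2 ≤ k) :
    ∀ᶠ n : ℕ in atTop, ∃ G : SimpleGraph (Fin n), Good2 k n (pk k) G := by
  have hp := pk_pos k
  have hk0 : (0 : ℝ) < k := by
    have : (2 : ℝ) ≤ k := by exact_mod_cast hk
    linarith
  have h1 : ∀ᶠ n : ℕ in atTop, 16 * k / pk k ^ 4 ≤ (n : ℝ) :=
    tendsto_natCast_atTop_atTop.eventually_ge_atTop _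
  have h2 : ∀ᶠ n : ℕ in atTop, 4 * k / pk k ≤ (n : ℝ) :=
    tendsto_natCast_atTop_atTop.eventually_ge_atTop _
  filter_upwards [h1, h2, eventually_ge_atTop (k + 8)] with n h1 h2 hn
  apply good2_exists_aux k n hk (by omega) (pk k) hp
  · unfold pk
    rw [← mul_pow]
    norm_num
  · obtain ⟨r, rfl⟩ : ∃ r : ℕ, n = r + 4 := ⟨n - 4, by omega⟩
    have hr : (4 : ℝ) ≤ r := by
      have : 4 ≤ r := by omega
      exact_mod_cast this
    rw [desc4]
    rw [div_le_iff₀ (by positivity)] at h1
    push_cast at h1 ⊢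
    rw [div_le_div_iff₀ (by positivity) hk0, one_mul]
    have h3 : ((r : ℝ) + 4) ^ 4 / 8 ≤ (r + 4) * (r + 3) * (r + 2) * (r + 1) := by
      have e : (r + 4) * (r + 3) * (r + 2) * (r + 1) - ((r : ℝ) + 4) ^ 4 / 8 =
          (r + 4) * (7 * r ^ 3 + 36 * r ^ 2 + 40 * r - 16) / 8 := by ring
      have e2 : 0 ≤ (r + 4) * (7 * (r : ℝ) ^ 3 + 36 * r ^ 2 + 40 * r - 16) / 8 := by
        have : 0 ≤ 7 * (r : ℝ) ^ 3 + 36 * r ^ 2 + 40 * r - 16 := by
          nlinarith [pow_nonneg (by linarith : (0 : ℝ) ≤ r) 3, sq_nonneg (r : ℝ)]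
        positivity
      linarith
    have h4 : 2 * ((r : ℝ) + 4) ^ 3 * k ≤ ((r : ℝ) + 4) ^ 4 / 8 * pk k ^ 4 := by
      have : ((r : ℝ) + 4) ^ 3 * (16 * k) ≤ (r + 4) ^ 3 * ((r + 4) * pk k ^ 4) :=
        mul_le_mul_of_nonneg_left h1 (by positivity)
      nlinarith
    refine h4.trans ?_
    exact mul_le_mul_of_nonneg_right h3 (by positivity)
  · obtain ⟨r, rfl⟩ : ∃ r : ℕ, n = r + 4 := ⟨n - 4, by omega⟩
    have hr : (0 : ℝ) ≤ r := Nat.cast_nonneg r
    rw [desc2, pow_one]
    rw [div_le_iff₀ hp] at h2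
    push_cast at h2 ⊢
    rw [div_le_div_iff₀ (by positivity) (by positivity), one_mul]
    have h3 : ((r : ℝ) + 4) * pk k ≤ (r + 4) * (r + 3) * pk k := by
      apply mul_le_mul_of_nonneg_right _ hp.le
      nlinarith
    linarith

theorem eventually_rate (k : ℕ) :
    ∀ᶠ n : ℕ in atTop, (k : ℝ) * (((k : ℝ) ^ 7 + 1) * Real.log 2) ≤ Real.log n :=
  (Real.tendsto_log_atTop.comp tendsto_natCast_atTop_atTop).eventually_ge_atTop _

theorem diag (P : ℕ → ℕ → Prop) (h : ∀ k, 2 ≤ k → ∀ᶠ n in atTop, P k n) :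
    ∃ κ : ℕ → ℕ, Tendsto κ atTop atTop ∧ ∀ᶠ n in atTop, P (κ n) n := by
  have h' : ∀ k, ∃ N, 2 ≤ k → ∀ n ≥ N, P k n := by
    intro k
    by_cases hk : 2 ≤ k
    · obtain ⟨N, hN⟩ := eventually_atTop.1 (h k hk)
      exact ⟨N, fun _ => hN⟩
    · exact ⟨0, fun h => absurd h hk⟩
  choose N hN using h'
  let M : ℕ → ℕ := fun k => ∑ j ∈ Finset.range (k + 1), N j + k
  have hM : ∀ k, N k ≤ M k := fun k =>
    (Finset.single_le_sum (fun _ _ => Nat.zero_le _) (Finset.self_mem_range_succ k)).trans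
      (Nat.le_add_right _ _)
  refine ⟨fun n => Nat.findGreatest (fun k => M k ≤ n) n, ?_, ?_⟩
  · rw [tendsto_atTop]
    intro K
    filter_upwards [eventually_ge_atTop (M K)] with n hn
    exact Nat.le_findGreatest ((Nat.le_add_left _ _).trans hn) hn
  · filter_upwards [eventually_ge_atTop (M 2)] with n hn
    have h2n : 2 ≤ n := (Nat.le_add_left _ _).trans hn
    have h1 : 2 ≤ Nat.findGreatest (fun k => M k ≤ n) n := Nat.le_findGreatest h2n hn
    have h2 : M (Nat.findGreatest (fun k => M k ≤ n) n) ≤ n :=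
      Nat.findGreatest_spec (P := fun k => M k ≤ n) h2n hn
    exact hN _ h1 n ((hM _).trans h2)

theorem desc_two (n : ℕ) : n.descFactorial 2 = 2 * n.choose 2 := by
  rw [Nat.descFactorial_eq_factorial_mul_choose]
  rfl

/-- The number of embeddings of an edge is twice the number of edges. -/
theorem emb_K2 {n : ℕ} (G : SimpleGraph (Fin n)) :
    Pool.Agent.X51.SparseTri.emb K2 G = 2 * G.edgeSet.ncard := by
  classical
  have h1 : Pool.Agent.X51.SparseTri.emb K2 G = Fintype.card G.Dart := by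
    unfold Pool.Agent.X51.SparseTri.emb
    rw [← Nat.card_eq_fintype_card, ← Nat.card_coe_set_eq]
    refine Nat.card_congr ⟨fun f => ⟨(f.1 0, f.1 1), f.2.2 0 1 (by simp)⟩,
      fun d => ⟨![d.fst, d.snd], ?_, ?_⟩, ?_, ?_⟩
    · intro i j hij
      have hd := d.adj.ne
      fin_cases i <;> fin_cases j <;> simp_all
    · intro i j hij
      have hd := d.adj
      have hd' := d.adj.symm
      fin_cases i <;> fin_cases j <;> simp_all
    · rintro ⟨f, hf⟩
      apply Subtype.ext
      funext i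
      fin_cases i <;> rfl
    · intro d
      rfl
  rw [h1, SimpleGraph.dart_card_eq_twice_card_edges, Set.ncard_eq_toFinset_card']
  rfl

/-- **Result.** There are `p(n) ∈ (0, 1]` with `log (1 / p(n)) / log n → 0` and graphs `G_n` on
`n` vertices with `e(G_n) = p(n) * n(n-1)/2`, `s_p(C_4, G_n) → 1`, and `s_p(F, G_n)` bounded for
every fixed graph `F`, for which `s_p(K_3, G_n) → 0`. -/
theorem result : ∃ (p : ℕ → ℝ) (G : ∀ n : ℕ, SimpleGraph (Fin n)),
    (∀ n, 0 < p n ∧ p n ≤ 1) ∧
    Tendsto (fun n : ℕ => Real.log (1 / p n) / Real.log n) atTop (𝓝 0) ∧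
    (∀ n, ((G n).edgeSet.ncard : ℝ) = p n * (n.choose 2 : ℝ)) ∧
    Tendsto (fun n => s (p n) (SimpleGraph.cycleGraph 4) (G n)) atTop (𝓝 1) ∧
    (∀ (v : ℕ) (F : SimpleGraph (Fin v)), ∃ C : ℝ, ∀ n, s (p n) F (G n) ≤ C) ∧
    Tendsto (fun n => s (p n) (⊤ : SimpleGraph (Fin 3)) (G n)) atTop (𝓝 0) := by
  classical
  rw [← SimpleGraph.cycleGraph_three_eq_top]
  obtain ⟨κ, hκ, hP⟩ := diag (fun k n => (∃ G : SimpleGraph (Fin n), Good2 k n (pk k) G) ∧
      (k : ℝ) * (((k : ℝ) ^ 7 + 1) * Real.log 2) ≤ Real.log n)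
    (fun k hk => (eventually_good k hk).and (eventually_rate k))
  have hex : ∀ n : ℕ, ∃ G : SimpleGraph (Fin n), (2 ≤ n → 0 < G.edgeSet.ncard) ∧
      ((∃ G' : SimpleGraph (Fin n), Good2 (κ n) n (pk (κ n)) G' ∧ 0 < G'.edgeSet.ncard) →
        Good2 (κ n) n (pk (κ n)) G) := by
    intro n
    by_cases h : ∃ G' : SimpleGraph (Fin n), Good2 (κ n) n (pk (κ n)) G' ∧ 0 < G'.edgeSet.ncard
    · obtain ⟨G', hG', hG''⟩ := h
      exact ⟨G', fun _ => hG'', fun _ => hG'⟩
    · refine ⟨⊤, fun hn => ?_, fun h' => absurd h' h⟩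
      rw [Set.ncard_pos]
      refine ⟨s(⟨0, by omega⟩, ⟨1, by omega⟩), ?_⟩
      rw [SimpleGraph.mem_edgeSet, SimpleGraph.top_adj]
      intro h
      have := congrArg Fin.val h
      simp at this
  choose G hGe hG' using hex
  have hκR : Tendsto (fun n => (κ n : ℝ)) atTop atTop := tendsto_natCast_atTop_atTop.comp hκ
  have h9 : ∀ c : ℝ, Tendsto (fun n => c / (κ n : ℝ)) atTop (𝓝 0) := fun c =>
    tendsto_const_nhds.div_atTop hκR
  have hG : ∀ᶠ n in atTop, Good2 (κ n) n (pk (κ n)) (G n) := by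
    filter_upwards [hP, hκR.eventually_ge_atTop 10] with n hn hk
    obtain ⟨⟨G', hg⟩, _⟩ := hn
    refine hG' n ⟨G', hg, ?_⟩
    by_contra hc
    have h0 : G'.edgeSet.ncard = 0 := by omega
    have h1 := hg.1
    rw [emb_K2, h0] at h1
    norm_num at h1
    have h2 : (9 : ℝ) / κ n < 1 := by
      rw [div_lt_one (by linarith)]
      linarith
    linarith
  let x : ℕ → ℝ := fun n => (Pool.Agent.X51.SparseTri.emb K2 (G n) : ℝ) /
      ((n.descFactorial 2 : ℝ) * pk (κ n) ^ 1) - 1
  have hx : Tendsto x atTop (𝓝 0) := by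
    have h1 : Tendsto (fun n : ℕ => (x n) ^ 2) atTop (𝓝 0) := by
      refine squeeze_zero' (Eventually.of_forall fun n => sq_nonneg _) ?_ (h9 9)
      filter_upwards [hG] with n hn
      exact hn.1
    have h2 := (Real.continuous_sqrt.tendsto 0).comp h1
    rw [Real.sqrt_zero] at h2
    rw [tendsto_zero_iff_abs_tendsto_zero]
    refine h2.congr fun n => ?_
    simp only [Function.comp_apply, Real.sqrt_sq_eq_abs]
  have hxh : ∀ᶠ n in atTop, -(1 / 2) ≤ x n :=
    hx.eventually (Ici_mem_nhds (by norm_num))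
  have hle : ∀ n, (G n).edgeSet.ncard ≤ n.choose 2 := by
    intro n
    have := (G n).card_edgeFinset_le_card_choose_two
    rw [Fintype.card_fin] at this
    rw [Set.ncard_eq_toFinset_card']
    exact this
  let p : ℕ → ℝ := fun n => if n < 2 then 1 else ((G n).edgeSet.ncard : ℝ) / (n.choose 2 : ℝ)
  have hp2 : ∀ n, 2 ≤ n → p n = ((G n).edgeSet.ncard : ℝ) / (n.choose 2 : ℝ) := by
    intro n hn
    have : ¬ n < 2 := by omega
    simp only [p, if_neg this]
  have hch : ∀ n, 2 ≤ n → (0 : ℝ) < (n.choose 2 : ℝ) := by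
    intro n hn
    exact_mod_cast Nat.choose_pos hn
  have hp01 : ∀ n, 0 < p n ∧ p n ≤ 1 := by
    intro n
    by_cases hn : n < 2
    · simp only [p, if_pos hn]
      norm_num
    · rw [hp2 n (by omega)]
      have h1 := hch n (by omega)
      have h2 : (0 : ℝ) < ((G n).edgeSet.ncard : ℝ) := by exact_mod_cast hGe n (by omega)
      have h3 : ((G n).edgeSet.ncard : ℝ) ≤ (n.choose 2 : ℝ) := by exact_mod_cast hle n
      refine ⟨div_pos h2 h1, (div_le_one h1).2 h3⟩
  have hpx : ∀ n, 2 ≤ n → p n = (1 + x n) * pk (κ n) := by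
    intro n hn
    rw [hp2 n hn]
    have h1 := hch n hn
    have h2 := pk_pos (κ n)
    simp only [x]
    rw [emb_K2, desc_two]
    push_cast
    field_simp
    ring
  have hs : ∀ n, 2 ≤ n → ∀ (v : ℕ) (F : SimpleGraph (Fin v)), s (p n) F (G n) =
      (Pool.Agent.X51.SparseTri.emb F (G n) : ℝ) /
        ((n.descFactorial v : ℝ) * pk (κ n) ^ F.edgeSet.ncard) *
        (1 / (1 + x n) ^ F.edgeSet.ncard) := by
    intro n hn v F
    unfold s
    rw [hpx n hn, mul_pow]
    change (Pool.Agent.X51.SparseTri.emb F (G n) : ℝ) / _ = _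
    rw [div_mul_div_comm, mul_one]
    congr 1
    ring
  have hxi : ∀ r : ℕ, Tendsto (fun n => 1 / (1 + x n) ^ r) atTop (𝓝 1) := by
    intro r
    have h1 : Tendsto (fun n => (1 + x n) ^ r) atTop (𝓝 1) := by
      have := (hx.const_add 1).pow r
      simpa using this
    have h2 : Tendsto (fun n => 1 / (1 + x n) ^ r) atTop (𝓝 (1 / 1)) :=
      (tendsto_const_nhds (x := (1 : ℝ))).div h1 (by norm_num)
    rwa [div_one] at h2
  refine ⟨p, G, hp01, ?_, ?_, ?_, ?_, ?_⟩
  · -- `p = n ^ (-o(1))`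
    refine squeeze_zero' ?_ ?_ (h9 1)
    · filter_upwards [eventually_ge_atTop 1] with n hn
      apply div_nonneg
      · apply Real.log_nonneg
        rw [le_div_iff₀ (hp01 n).1, one_mul]
        exact (hp01 n).2
      · exact Real.log_nonneg (by exact_mod_cast hn)
    · filter_upwards [hP, hxh, eventually_ge_atTop 2, hκR.eventually_ge_atTop 1] with n hn hx2 hn2 hk
      have h1 : Real.log (1 / p n) ≤ ((κ n : ℝ) ^ 7 + 1) * Real.log 2 := by
        rw [hpx n hn2]
        have h3 : (0 : ℝ) < 1 + x n := by linarith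
        have h4 := pk_pos (κ n)
        rw [one_div, Real.log_inv, Real.log_mul h3.ne' h4.ne']
        have h5 : Real.log (pk (κ n)) = -((κ n : ℝ) ^ 7 * Real.log 2) := by
          unfold pk
          rw [Real.log_pow, one_div, Real.log_inv]
          push_cast
          ring
        have h6 : -Real.log 2 ≤ Real.log (1 + x n) := by
          rw [← Real.log_inv]
          apply Real.log_le_log (by norm_num)
          linarith
        rw [h5]
        linarith
      have h2 : 0 < Real.log n := Real.log_pos (by exact_mod_cast hn2)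
      rw [div_le_div_iff₀ h2 (by linarith), one_mul]
      have h3 : Real.log (1 / p n) * κ n ≤ ((κ n : ℝ) ^ 7 + 1) * Real.log 2 * κ n :=
        mul_le_mul_of_nonneg_right h1 (by linarith)
      have h4 := hn.2
      linarith
  · -- the number of edges
    intro n
    by_cases hn : n < 2
    · have h1 : n.choose 2 = 0 := Nat.choose_eq_zero_of_lt hn
      have h2 := hle n
      rw [h1] at h2 ⊢
      have h3 : (G n).edgeSet.ncard = 0 := by omega
      rw [h3]
      norm_num
    · rw [hp2 n (by omega)]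
      have h1 := hch n (by omega)
      field_simp
  · -- four-cycles
    have hc4 : (SimpleGraph.cycleGraph 4).edgeSet.ncard = 4 := by
      have h := edges_C4
      rw [Set.ncard_eq_toFinset_card']
      change (C4).edgeFinset.card = 4
      rw [h]
      decide
    have hy : Tendsto (fun n : ℕ => (Pool.Agent.X51.SparseTri.emb C4 (G n) : ℝ) /
        ((n.descFactorial 4 : ℝ) * pk (κ n) ^ 4) - 1) atTop (𝓝 0) := by
      have l1 : Tendsto (fun n : ℕ => 4 * x n - 1 / (κ n : ℝ)) atTop (𝓝 0) := by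
        have := (hx.const_mul 4).sub (h9 1)
        simpa using this
      have l2 : Tendsto (fun n : ℕ => 4 * x n + 9 / (κ n : ℝ)) atTop (𝓝 0) := by
        have := (hx.const_mul 4).add (h9 9)
        simpa using this
      refine tendsto_of_tendsto_of_tendsto_of_le_of_le' l1 l2 ?_ ?_
      · filter_upwards [hG] with n hn
        exact hn.2.1
      · filter_upwards [hG] with n hn
        exact hn.2.2.1
    have hy1 := hy.add_const 1
    simp only [sub_add_cancel, zero_add] at hy1
    have h1 := hy1.mul (hxi 4)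
    rw [mul_one] at h1
    refine h1.congr' ?_
    filter_upwards [eventually_ge_atTop 2] with n hn
    rw [hs n hn 4, hc4]
  · -- all graphs
    intro v F
    have h1 : ∀ᶠ n in atTop, s (p n) F (G n) ≤ CF F * 2 ^ F.edgeSet.ncard := by
      filter_upwards [hG, hκ.eventually_ge_atTop v, eventually_ge_atTop 2, hxh]
        with n hn hkv hn2 hx2
      rw [hs n hn2 v F]
      have h1 := hn.2.2.2.2 v hkv F
      have h3 : (0 : ℝ) < 1 + x n := by linarith
      have h2 : 1 / (1 + x n) ^ F.edgeSet.ncard ≤ 2 ^ F.edgeSet.ncard := by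
        rw [← one_div_pow]
        apply pow_le_pow_left₀ (by positivity)
        rw [div_le_iff₀ h3]
        linarith
      exact mul_le_mul h1 h2 (by positivity) (CF_pos F).le
    obtain ⟨N, hN⟩ := eventually_atTop.1 h1
    refine ⟨CF F * 2 ^ F.edgeSet.ncard + ∑ j ∈ Finset.range N, |s (p j) F (G j)|,
      fun n => ?_⟩
    have hs0 : 0 ≤ ∑ j ∈ Finset.range N, |s (p j) F (G j)| :=
      Finset.sum_nonneg fun _ _ => abs_nonneg _
    by_cases hn : N ≤ n
    · have := hN n hn
      linarith
    · have h3 : |s (p n) F (G n)| ≤ ∑ j ∈ Finset.range N, |s (p j) F (G j)| :=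
        Finset.single_le_sum (f := fun j => |s (p j) F (G j)|) (fun _ _ => abs_nonneg _)
          (Finset.mem_range.2 (by omega))
      have h4 := le_abs_self (s (p n) F (G n))
      have h5 : 0 < CF F * 2 ^ F.edgeSet.ncard := mul_pos (CF_pos F) (by positivity)
      linarith
  · -- triangles
    have hc3 : (SimpleGraph.cycleGraph 3).edgeSet.ncard = 3 := by
      have h := edges_C3
      rw [Set.ncard_eq_toFinset_card']
      change (C3).edgeFinset.card = 3
      rw [h]
      decide
    have hz : Tendsto (fun n : ℕ => (Pool.Agent.X51.SparseTri.emb C3 (G n) : ℝ) /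
        ((n.descFactorial 3 : ℝ) * pk (κ n) ^ 3)) atTop (𝓝 0) := by
      refine squeeze_zero' (Eventually.of_forall fun n => ?_) ?_ (h9 9)
      · have := pk_pos (κ n)
        positivity
      · filter_upwards [hG] with n hn
        exact hn.2.2.2.1
    have h1 := hz.mul (hxi 3)
    rw [zero_mul] at h1
    refine h1.congr' ?_
    filter_upwards [eventually_ge_atTop 2] with n hn
    rw [hs n hn 3, hc3]

end Pool.Agent.Results.MP_e47ff0_co.FewTriangles
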